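import Mathlib
import Pool.Agent.K6.H59.Lit.Dich

/-!
# The limit points of `q ⟨qα⟩ ⟨qβ⟩`: everything or nothing near zero

Let `α` and `β` be irrational.  Littlewood's conjecture holds for the pair `(α, β)` if and only if
every real number `t ≥ 0` is a limit point of the sequence `q ⟨qα⟩ ⟨qβ⟩`, `q → ∞`.  So the set of
the limit points in `[0, ∞)` is either `[0, ∞)` or bounded away from zero.
-/

set_option autoImplicit false

open Filter Topology

namespace Pool.Agent.Results.MP_0ea415_nt.AllLimitValues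

theorem result (α β : ℝ) (hα : Irrational α) (hβ : Irrational β) :
    (∀ ε : ℝ, 0 < ε → ∀ N : ℕ, ∃ q : ℕ, N ≤ q ∧ 0 < q ∧
      (q : ℝ) * |(q : ℝ) * α - (round ((q : ℝ) * α) : ℝ)|
        * |(q : ℝ) * β - (round ((q : ℝ) * β) : ℝ)| < ε) ↔
    ∀ t : ℝ, 0 ≤ t → MapClusterPt t atTop (fun q : ℕ =>
      (q : ℝ) * |(q : ℝ) * α - (round ((q : ℝ) * α) : ℝ)|
        * |(q : ℝ) * β - (round ((q : ℝ) * β) : ℝ)|) := by
  constructor
  · intro h t ht
    exact Pool.Agent.K6.H59.Lit.dichotomy hα hβ h ht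
  · intro h ε hε N
    have h0 := h 0 le_rfl
    rw [mapClusterPt_iff_frequently] at h0
    have h1 := h0 (Metric.ball 0 ε) (Metric.ball_mem_nhds 0 hε)
    rw [Filter.frequently_atTop] at h1
    obtain ⟨q, hq, h2⟩ := h1 (N + 1)
    refine ⟨q, by omega, by omega, ?_⟩
    rw [Metric.mem_ball, Real.dist_eq, sub_zero] at h2
    exact lt_of_abs_lt h2

end Pool.Agent.Results.MP_0ea415_nt.AllLimitValues
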