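import Mathlib
import Pool.Agent.K6.H59.PR.AE

/-!
# Littlewood's problem along `b^j β` for continued fractions with long periodic runs

For an irrational `α` with partial quotients `a k` (`pq α k`) and convergents with denominators
`q_{k-1}` (`den α k`) we say that `α` has long runs of period `p` (`LongRuns p α`) if for every `n`
there is `k ≥ n` with `a (i + p) = a i` for `k ≤ i < k + n`.  (In other words: the closure of the
orbit of the sequence of partial quotients under the shift contains a sequence of period `p`, or the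
geodesic of `α` in the modular surface accumulates at a closed geodesic.)  We call `β` resonant with
`α` (`Resonant p α β`) if for some `d ≥ 1` the numbers `‖d q_{k-1} β‖` tend to zero when `k` goes to
infinity deep inside the runs of period `p`, i.e. with `a (i + p) = a i` for `k - n ≤ i < k + n`,
`n → ∞`.

`result`: let `b ≥ 2`, `p ≥ 1`.

1. Let `ε, δ > 0`.  There is `N₀`, depending only on `b, p, ε, δ`, such that for every irrational `α`
with long runs of period `p`, every real `β` and every window of `N ≥ N₀` consecutive integers `j`,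
all but `δ N` of these `j` satisfy: there are infinitely many `q` with `q ‖qα‖ ‖q b^j β‖ < ε`, and if
`β` is not resonant also infinitely many `q` with `q ‖qα‖ ‖q b^j β - γ‖ < ε`, for all real `γ`.

2. Let `α` be irrational with long runs of period `p`.  For every probability measure on `ℝ/ℤ`
invariant under multiplication by `b`, almost every `β` satisfies `liminf q ‖qα‖ ‖qβ‖ = 0`, and if
it is not resonant also `liminf q ‖qα‖ ‖qβ - γ‖ = 0` for all real `γ`.

The proof considers the cluster set of the points `(q_{k+2p} β, q_k β)` of the torus, `k` deep in the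
runs, which is invariant under a hyperbolic automorphism, and uses a uniform theorem for such
invariant sets and multiplication by `b`, which was used before for quadratic `α`
(`Pool.Agent.W765.Hb.uniform_infinite`).
-/

open Filter MeasureTheory Pool.Agent.H380R2.LC Pool.Agent.K6.H59.PR

namespace Pool.Agent.Results.MP_0ea415_nt.PeriodicRuns

open Classical in
theorem result (b : ℕ) (hb : 2 ≤ b) (p : ℕ) (hp : 1 ≤ p) :
    (∀ ε : ℝ, 0 < ε → ∀ δ : ℝ, 0 < δ → ∃ N₀ : ℕ, ∀ α : ℝ, Irrational α → LongRuns p α →
      ∀ β : ℝ, ∀ N ≥ N₀, ∀ T : ℕ,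
      (((Finset.range N).filter (fun i : ℕ =>
        ¬ ∀ γ : ℝ, (γ = 0 ∨ ¬ Resonant p α β) →
          ∃ᶠ q : ℕ in atTop, (q : ℝ) * |q * α - round (q * α)|
            * |(q * ((b : ℝ) ^ (T + i) * β) - γ) - round (q * ((b : ℝ) ^ (T + i) * β) - γ)|
              < ε)).card : ℝ) ≤ δ * N) ∧
    (∀ α : ℝ, Irrational α → LongRuns p α → ∀ μ : Measure (AddCircle (1 : ℝ)),
      IsProbabilityMeasure μ → MeasurePreserving (fun x : AddCircle (1 : ℝ) => b • x) μ μ →
      ∀ᵐ x ∂μ, ∀ β : ℝ, (β : AddCircle (1 : ℝ)) = x →
        ∀ γ : ℝ, (γ = 0 ∨ ¬ Resonant p α β) →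
          ∀ ε : ℝ, 0 < ε → ∃ᶠ q : ℕ in atTop, (q : ℝ) * |q * α - round (q * α)|
            * |(q * β - γ) - round (q * β - γ)| < ε) :=
  ⟨fun _ hε _ hδ => uniform_cf hb hp hε hδ, fun _ hα hrun _ _ hμ => ae_cf hb hp hα hrun hμ⟩

end Pool.Agent.Results.MP_0ea415_nt.PeriodicRuns
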