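import Mathlib
import Pool.Agent.K6.H59.TB.Tree
import Pool.Agent.Results.MP_0ea415_nt.QuadraticRepetitions

/-!
# Littlewood's conjecture for a quadratic `α` and expansions of `β` built from three blocks

Let `ε > 1`, `ε² - tε + 1 = 0` with an integer `t ≥ 3`, let `α = a + bε` with rational `a, b` (every
real quadratic irrational is of this form), and `β = ∑ d_k ε^{-k}` with bounded integer digits `d_k`
(every real number has such expansions).  Suppose that for every `m` there are three words of length
at least `m` such that the sequence `d` contains a concatenation of thirteen of these words.  Then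
Littlewood's conjecture holds for `(α, β)`.

This holds for instance for all sequences generated by a substitution on three letters (all of whose
letters grow), with any integer values of the letters, and more generally for all sequences which are
generated by any infinite composition of substitutions on three letters (minimal systems of
topological rank at most three).

If the three words have length at most `ρ m`, and the concatenation begins before `ρ m` (as for the
fixed points of primitive substitutions), then even `q^{1+η} ‖qα‖ ‖qβ‖ < 1` for some `η > 0` and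
infinitely many `q`.

The main point is combinatorial: give positive weights to three letters; then every word of length
`13` contains a factor `u v u` in which `u` has larger weight than `v` (`TB.exists_rep`).  For equal
weights this is a part of Dejean's bound `7/4` for words over three letters.
-/

set_option autoImplicit false

namespace Pool.Agent.Results.MP_0ea415_nt.ThreeBlocks

open Pool.Agent.K6.H59.TB

/-- Littlewood's conjecture for the pair `(α, β)` (the form of the frozen statement). -/
def Littlewood (α β : ℝ) : Prop :=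
  ∀ η : ℝ, 0 < η → ∀ N : ℕ, ∃ q : ℕ, N ≤ q ∧ 0 < q ∧
    (q : ℝ) * |(q : ℝ) * α - (round ((q : ℝ) * α) : ℝ)|
      * |(q : ℝ) * β - (round ((q : ℝ) * β) : ℝ)| < η

/-- `q^{1+η} ‖qα‖ ‖qβ‖ < 1` for some `η > 0` and arbitrarily large `q`. -/
def PowerSaving (α β : ℝ) : Prop :=
  ∃ η : ℝ, 0 < η ∧ ∀ N : ℕ, ∃ q : ℕ, N ≤ q ∧ 0 < q ∧
    (q : ℝ) ^ (1 + η) * |(q : ℝ) * α - (round ((q : ℝ) * α) : ℝ)|
      * |(q : ℝ) * β - (round ((q : ℝ) * β) : ℝ)| < 1

/-- The sequence `d` reads the word `w` from position `s` on. -/
def Reads (d : ℕ → ℤ) (s : ℕ) (w : List ℤ) : Prop :=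
  ∀ (i : ℕ) (h : i < w.length), d (s + i) = w[i]

lemma reads_append {d : ℕ → ℤ} {s : ℕ} {w w' : List ℤ} (h : Reads d s (w ++ w')) :
    Reads d s w ∧ Reads d (s + w.length) w' := by
  constructor
  · intro i hi
    have := h i (by rw [List.length_append]; omega)
    rw [this, List.getElem_append_left hi]
  · intro i hi
    have := h (w.length + i) (by rw [List.length_append]; omega)
    rw [add_assoc, this, List.getElem_append_right (by omega)]
    congr 1
    omega

/-- a repetition in a concatenation of thirteen words -/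
lemma rep_of_reads (d : ℕ → ℤ) (K : ℕ) (hK : 0 < K) (W : Fin 3 → List ℤ) (x : List (Fin 3)) (s : ℕ)
    (hW : ∀ i, 2 * K ≤ (W i).length) (hx : x.length = 13) (hr : Reads d s (x.flatMap W)) :
    ∃ s' ℓ n : ℕ, 0 < ℓ ∧ ℓ + K ≤ 2 * n ∧ K ≤ n ∧ s' + n ≤ s + (x.flatMap W).length ∧
      QuadraticRepetitions.Repeats d s' ℓ n := by
  obtain ⟨x₁, u, v, x₂, hxe, hwt⟩ := exists_rep (fun i => (W i).length) K hW x hx.ge
  have hlen : ∀ l : List (Fin 3), (l.flatMap W).length = wt (fun i => (W i).length) l := by
    intro l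
    rw [List.length_flatMap]
    rfl
  rw [← hlen, ← hlen] at hwt
  rw [hxe, List.flatMap_append, List.flatMap_append, List.flatMap_append, List.flatMap_append] at hr
  have htot : (x.flatMap W).length = (x₁.flatMap W).length + ((u.flatMap W).length +
      ((v.flatMap W).length + ((u.flatMap W).length + (x₂.flatMap W).length))) := by
    rw [hxe, List.flatMap_append, List.flatMap_append, List.flatMap_append, List.flatMap_append,
      List.length_append, List.length_append, List.length_append, List.length_append]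
  obtain ⟨-, h2⟩ := reads_append hr
  obtain ⟨h3, h4⟩ := reads_append h2
  obtain ⟨-, h5⟩ := reads_append h4
  obtain ⟨h6, -⟩ := reads_append h5
  refine ⟨s + (x₁.flatMap W).length, (u.flatMap W).length + (v.flatMap W).length,
    (u.flatMap W).length, by omega, by omega, by omega, by omega, 1, Or.inl rfl, ?_⟩
  intro k hk1 hk2
  obtain ⟨i, rfl⟩ := Nat.exists_eq_add_of_le hk1
  have hi : i < (u.flatMap W).length := by omega
  rw [one_mul, h3 i hi, ← h6 i hi]
  congr 1
  ring

theorem result (t : ℤ) (ε : ℝ) (ht : 3 ≤ t) (h1 : 1 < ε) (hq : ε ^ 2 - t * ε + 1 = 0)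
    (a b : ℚ) (α : ℝ) (hα : α = a + b * ε)
    (d : ℕ → ℤ) (β : ℝ) (hd : ∃ B : ℤ, ∀ k, |d k| ≤ B) (hβ : β = ∑' k : ℕ, (d k : ℝ) * ε⁻¹ ^ k) :
    ((∀ m : ℕ, ∃ (W : Fin 3 → List ℤ) (x : List (Fin 3)) (s : ℕ),
        (∀ i, m ≤ (W i).length) ∧ x.length = 13 ∧ Reads d s (x.flatMap W)) →
      Littlewood α β) ∧
    ((∃ ρ : ℕ, ∀ M : ℕ, ∃ m : ℕ, M ≤ m ∧ ∃ (W : Fin 3 → List ℤ) (x : List (Fin 3)) (s : ℕ),
        (∀ i, m ≤ (W i).length ∧ (W i).length ≤ ρ * m) ∧ s ≤ ρ * m ∧ x.length = 13 ∧
          Reads d s (x.flatMap W)) →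
      PowerSaving α β) := by
  have main := QuadraticRepetitions.result.2.2 t ε ht h1 hq a b α hα d β hd hβ
  constructor
  · intro h
    apply main.1
    intro K
    obtain ⟨W, x, s, hW, hx, hr⟩ := h (2 * (K + 1))
    obtain ⟨s', ℓ, n, hℓ, hn, -, -, hrep⟩ := rep_of_reads d (K + 1) (Nat.succ_pos _) W x s hW hx hr
    exact ⟨s', ℓ, n, hℓ, by omega, hrep⟩
  · rintro ⟨ρ, h⟩
    apply main.2.2.1
    refine ⟨1 / (56 * (ρ + 1)), by positivity, ?_⟩
    intro K
    obtain ⟨m, hm, W, x, s, hW, hs, hx, hr⟩ := h (2 * K + 2)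
    have hm2 : 2 * (m / 2) ≤ m := Nat.mul_div_le m 2
    have hm1 : 0 < m / 2 := by omega
    obtain ⟨s', ℓ, n, hℓ, hn, hKn, hsn, hrep⟩ :=
      rep_of_reads d (m / 2) hm1 W x s (fun i => hm2.trans (hW i).1) hx hr
    refine ⟨s', ℓ, n, hℓ, by omega, ?_, hrep⟩
    have hlen : (x.flatMap W).length ≤ 13 * (ρ * m) := by
      rw [List.length_flatMap, ← hx]
      have : ∀ l : List (Fin 3), (l.map fun i => (W i).length).sum ≤ l.length * (ρ * m) := by
        intro l
        induction l with
        | nil => simp
        | cons i l ih =>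
          rw [List.map_cons, List.sum_cons, List.length_cons]
          have := (hW i).2
          nlinarith
      exact this x
    have h3 : s' + n ≤ 14 * (ρ * m) := by omega
    have h4 : m ≤ 4 * (m / 2) := by omega
    have h3' : ((s' + n : ℕ) : ℝ) ≤ 14 * (ρ * m) := by exact_mod_cast h3
    have h4' : (m : ℝ) ≤ 4 * ((m / 2 : ℕ) : ℝ) := by exact_mod_cast h4
    have hn' : (ℓ : ℝ) + ((m / 2 : ℕ) : ℝ) ≤ 2 * n := by exact_mod_cast hn
    have hρ : (0 : ℝ) ≤ ρ := Nat.cast_nonneg _
    have hm0 : (0 : ℝ) ≤ m := Nat.cast_nonneg _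
    have h5 : 1 / (56 * ((ρ : ℝ) + 1)) * (s' + n) ≤ ((m / 2 : ℕ) : ℝ) := by
      rw [one_div_mul_eq_div, div_le_iff₀ (by positivity)]
      push_cast at h3'
      nlinarith
    linarith

end Pool.Agent.Results.MP_0ea415_nt.ThreeBlocks
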