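import Mathlib
import Pool.Agent.K6.H59.Lit.Dich
import Pool.Agent.W241.LacD

/-!
# The limit points of `q ⟨qα⟩ ⟨qβ⟩`, for all pairs

Call a set `S` of real numbers lacunary if for all `R > 1` and `ε > 0` there is `η < ε` such that no
difference of two elements of `S` has absolute value in `[η, R η]`.  Single points are lacunary.

Let `α`, `β` be any irrational numbers.  Let `T > 2 / 9` (or, more generally, let `T` be such that
every product of three real linear forms in three variables of determinant `±1` takes a value of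
absolute value `< T` at a nonzero integer point).  Then the set of limit points `t < T` of the
sequence `q ⟨qα⟩ ⟨qβ⟩`, `q → ∞`, is not contained in a countable union of lacunary sets.
In particular it is uncountable (`uncountable`).
-/

set_option autoImplicit false

open Filter Topology

namespace Pool.Agent.Results.MP_0ea415_nt.UnconditionalLimitValues

/-- an interval is not a countable union of lacunary sets -/
lemma interval_not_covered (T : ℝ) (hT : 0 < T) (C : ℕ → Set ℝ)
    (hC : ∀ k : ℕ, ∀ R : ℝ, 1 < R → ∀ ε : ℝ, 0 < ε → ∃ η : ℝ, 0 < η ∧ η < ε ∧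
      ∀ s ∈ C k, ∀ t ∈ C k, |s - t| < η ∨ R * η < |s - t|)
    (hcov : Set.Ico 0 T ⊆ ⋃ k, C k) : False := by
  have hint : (interior (⋃ k, closure (C k))).Nonempty := by
    refine ⟨T / 2, ?_⟩
    rw [mem_interior]
    refine ⟨Set.Ioo 0 T, ?_, isOpen_Ioo, by constructor <;> linarith⟩
    intro x hx
    obtain ⟨k, hk⟩ := Set.mem_iUnion.1 (hcov ⟨hx.1.le, hx.2⟩)
    exact Set.mem_iUnion.2 ⟨k, subset_closure hk⟩
  -- Baire on the interval
  have hbaire : ∃ k, (interior (closure (C k))).Nonempty := by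
    by_contra hcon
    push Not at hcon
    have hd : Dense (⋂ k, (closure (C k))ᶜ) := by
      apply dense_iInter_of_isOpen
      · intro k
        exact isClosed_closure.isOpen_compl
      · intro k
        rw [← interior_eq_empty_iff_dense_compl]
        exact hcon k
    have h1 := hd.inter_open_nonempty _ isOpen_interior hint
    obtain ⟨x, hx1, hx2⟩ := h1
    have h2 := interior_subset hx1
    rw [Set.mem_iUnion] at h2
    obtain ⟨k, hk⟩ := h2
    exact (Set.mem_iInter.1 hx2 k) hk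
  obtain ⟨k, x, hx⟩ := hbaire
  rw [mem_interior_iff_mem_nhds, Metric.mem_nhds_iff] at hx
  obtain ⟨ε, hε, hball⟩ := hx
  obtain ⟨η, hη0, hηε, hη⟩ := hC k 4 (by norm_num) (ε / 8) (by positivity)
  -- points near `x` and near `x + 2 η`
  have hmem : ∀ y : ℝ, |y - x| < ε / 2 → ∃ s ∈ C k, |s - y| < η / 4 := by
    intro y hy
    have h1 : y ∈ closure (C k) := hball (by
      rw [Metric.mem_ball, Real.dist_eq]
      linarith)
    rw [Metric.mem_closure_iff] at h1
    obtain ⟨s, hs, h2⟩ := h1 (η / 4) (by positivity)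
    refine ⟨s, hs, ?_⟩
    rw [Real.dist_eq, abs_sub_comm] at h2
    exact h2
  obtain ⟨s, hs, hs'⟩ := hmem x (by rw [sub_self, abs_zero]; positivity)
  obtain ⟨s₁, hs₁, hs₁'⟩ := hmem (x + 2 * η) (by
    rw [add_sub_cancel_left, abs_of_pos (by positivity)]
    linarith)
  rw [abs_lt] at hs' hs₁'
  rcases hη s₁ hs₁ s hs with h | h
  · rw [abs_lt] at h
    linarith [h.2]
  · rw [lt_abs] at h
    rcases h with h | h <;> linarith

theorem result (α β : ℝ) (hα : Irrational α) (hβ : Irrational β) (T : ℝ)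
    (hT : 2 / 9 < T ∨ ∀ h : Matrix (Fin 3) (Fin 3) ℝ, |h.det| = 1 →
      ∃ x : Fin 3 → ℤ, x ≠ 0 ∧ |∏ i : Fin 3, ∑ j : Fin 3, h i j * (x j : ℝ)| < T)
    (C : ℕ → Set ℝ)
    (hC : ∀ k : ℕ, ∀ R : ℝ, 1 < R → ∀ ε : ℝ, 0 < ε → ∃ η : ℝ, 0 < η ∧ η < ε ∧
      ∀ s ∈ C k, ∀ t ∈ C k, |s - t| < η ∨ R * η < |s - t|) :
    ¬ {t : ℝ | t < T ∧ MapClusterPt t atTop (fun q : ℕ =>
      (q : ℝ) * |(q : ℝ) * α - (round ((q : ℝ) * α) : ℝ)|
        * |(q : ℝ) * β - (round ((q : ℝ) * β) : ℝ)|)} ⊆ ⋃ k, C k := by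
  intro hcov
  have hT0 : 0 < T := by
    rcases hT with hT | hT
    · linarith
    · obtain ⟨x, -, hx⟩ := hT 1 (by simp)
      exact lt_of_le_of_lt (abs_nonneg _) hx
  have h1 := Pool.Agent.W241.Lac.littlewood_lacunary α β T hT C hC hcov
  apply interval_not_covered T hT0 C hC
  intro t ht
  exact hcov ⟨ht.2, Pool.Agent.K6.H59.Lit.dichotomy hα hβ h1 ht.1⟩

/-- the special case of countable sets -/
theorem uncountable (α β : ℝ) (hα : Irrational α) (hβ : Irrational β) (T : ℝ) (hT : 2 / 9 < T) :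
    ¬ {t : ℝ | t < T ∧ MapClusterPt t atTop (fun q : ℕ =>
      (q : ℝ) * |(q : ℝ) * α - (round ((q : ℝ) * α) : ℝ)|
        * |(q : ℝ) * β - (round ((q : ℝ) * β) : ℝ)|)}.Countable := by
  intro h
  rcases Set.eq_empty_or_nonempty {t : ℝ | t < T ∧ MapClusterPt t atTop (fun q : ℕ =>
      (q : ℝ) * |(q : ℝ) * α - (round ((q : ℝ) * α) : ℝ)|
        * |(q : ℝ) * β - (round ((q : ℝ) * β) : ℝ)|)} with h0 | hne
  · apply result α β hα hβ T (Or.inl hT) (fun _ => ∅)
    · intro k R _ ε hε
      exact ⟨ε / 2, by positivity, by linarith, fun s hs => absurd hs (Set.notMem_empty _)⟩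
    · rw [h0]
      exact Set.empty_subset _
  · obtain ⟨f, hf⟩ := h.exists_eq_range hne
    apply result α β hα hβ T (Or.inl hT) (fun k => {f k})
    · intro k R _ ε hε
      refine ⟨ε / 2, by positivity, by linarith, fun s hs t ht => Or.inl ?_⟩
      rw [Set.mem_singleton_iff] at hs ht
      rw [hs, ht, sub_self, abs_zero]
      positivity
    · rw [hf]
      rintro _ ⟨k, rfl⟩
      exact Set.mem_iUnion.2 ⟨k, rfl⟩

end Pool.Agent.Results.MP_0ea415_nt.UnconditionalLimitValues
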